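import Mathlib
import Pool.Agent.Q3.BurauCore

/-! The image of the virtual integral Burau representation. -/

namespace Pool.Agent.Results.MP_e5baee_al.BurauImage

open Matrix

/-- The free generator for the classical crossing with index `i`. -/
def sg {m : ℕ} (i : Fin m) : FreeGroup (Fin m ⊕ Fin m) := FreeGroup.of (Sum.inl i)

/-- The free generator for the virtual crossing with index `i`. -/
def tg {m : ℕ} (i : Fin m) : FreeGroup (Fin m ⊕ Fin m) := FreeGroup.of (Sum.inr i)

/-- The defining relators of the virtual braid group on `m + 1` strands (the generators, indexed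
by `1, ..., m` in the text, are indexed by `Fin m` here). -/
def relators (m : ℕ) : Set (FreeGroup (Fin m ⊕ Fin m)) :=
  {w | ∃ i j : Fin m, (i : ℕ) + 1 = j ∧
      (w = (sg i * sg j * sg i) * (sg j * sg i * sg j)⁻¹ ∨
       w = (tg i * tg j * tg i) * (tg j * tg i * tg j)⁻¹ ∨
       w = (tg i * tg j * sg i) * (sg j * tg i * tg j)⁻¹)} ∪
  {w | ∃ i j : Fin m, ((i : ℕ) + 2 ≤ j ∨ (j : ℕ) + 2 ≤ i) ∧
      (w = (sg i * sg j) * (sg j * sg i)⁻¹ ∨
       w = (tg i * tg j) * (tg j * tg i)⁻¹ ∨
       w = (sg i * tg j) * (tg j * sg i)⁻¹)} ∪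
  {w | ∃ i : Fin m, w = tg i * tg i}

/-- The virtual braid group on `m + 1` strands. -/
abbrev VB (m : ℕ) : Type := PresentedGroup (relators m)

/-- The generator `σ` with index `i`. -/
def sigma {m : ℕ} (i : Fin m) : VB m := PresentedGroup.of (Sum.inl i)

/-- The generator `τ` with index `i`. -/
def tau {m : ℕ} (i : Fin m) : VB m := PresentedGroup.of (Sum.inr i)

/-- The identity matrix with the block `(2, -1; 1, 0)` put in rows and columns `a, b`. -/
def sMat {n : ℕ} (a b : Fin n) : Matrix (Fin n) (Fin n) ℤ := fun r c =>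
  if r = a then (if c = a then 2 else if c = b then -1 else 0)
  else if r = b then (if c = a then 1 else 0)
  else if r = c then 1 else 0

/-- The identity matrix with the block `(0, 1; 1, 0)` put in rows and columns `a, b`. -/
def tMat {n : ℕ} (a b : Fin n) : Matrix (Fin n) (Fin n) ℤ := fun r c =>
  if r = a then (if c = b then 1 else 0)
  else if r = b then (if c = a then 1 else 0)
  else if r = c then 1 else 0

section relations

set_option linter.unusedSimpArgs false

variable {n : ℕ}

/-- The inverse of `sMat a b`. -/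
def sInv (a b : Fin n) : Matrix (Fin n) (Fin n) ℤ := fun r c =>
  if r = a then (if c = b then 1 else 0)
  else if r = b then (if c = a then -1 else if c = b then 2 else 0)
  else if r = c then 1 else 0

lemma sMat_mulVec {a b : Fin n} (hab : a ≠ b) (x : Fin n → ℤ) :
    sMat a b *ᵥ x = fun k => if k = a then 2 * x a - x b else if k = b then x a else x k := by
  funext k
  rw [Matrix.mulVec, dotProduct]
  by_cases hka : k = a
  · subst hka
    rw [Finset.sum_eq_add k b hab]
    · simp [sMat, hab.symm]; ring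
    · intro c _ hc
      simp [sMat, hc.1, hc.2]
    · simp
    · simp
  · by_cases hkb : k = b
    · subst hkb
      rw [Finset.sum_eq_single a]
      · simp [sMat, hka]
      · intro c _ hc
        simp [sMat, hc, hka]
      · simp
    · rw [Finset.sum_eq_single k]
      · simp [sMat, hka, hkb]
      · intro c _ hc
        simp [sMat, hka, hkb, Ne.symm hc]
      · simp

lemma sInv_mulVec {a b : Fin n} (hab : a ≠ b) (x : Fin n → ℤ) :
    sInv a b *ᵥ x = fun k => if k = a then x b else if k = b then 2 * x b - x a else x k := by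
  funext k
  rw [Matrix.mulVec, dotProduct]
  by_cases hkb : k = b
  · subst hkb
    rw [Finset.sum_eq_add k a hab.symm]
    · simp [sInv, hab.symm]; ring
    · intro c _ hc
      simp [sInv, hc.1, hc.2, hab.symm]
    · simp
    · simp
  · by_cases hka : k = a
    · subst hka
      rw [Finset.sum_eq_single b]
      · simp [sInv]
      · intro c _ hc
        simp [sInv, hc]
      · simp
    · rw [Finset.sum_eq_single k]
      · simp [sInv, hka, hkb]
      · intro c _ hc
        simp [sInv, hka, hkb, Ne.symm hc]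
      · simp

lemma tMat_mulVec {a b : Fin n} (x : Fin n → ℤ) :
    tMat a b *ᵥ x = fun k => if k = a then x b else if k = b then x a else x k := by
  funext k
  rw [Matrix.mulVec, dotProduct]
  by_cases hka : k = a
  · subst hka
    rw [Finset.sum_eq_single b]
    · simp [tMat]
    · intro c _ hc
      simp [tMat, hc]
    · simp
  · by_cases hkb : k = b
    · subst hkb
      rw [Finset.sum_eq_single a]
      · simp [tMat, hka]
      · intro c _ hc
        simp [tMat, hc, hka]
      · simp
    · rw [Finset.sum_eq_single k]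
      · simp [tMat, hka, hkb]
      · intro c _ hc
        simp [tMat, hka, hkb, Ne.symm hc]
      · simp

lemma mat_ext {A B : Matrix (Fin n) (Fin n) ℤ} (h : ∀ x, A *ᵥ x = B *ᵥ x) : A = B :=
  Matrix.mulVec_injective (funext h)

lemma sMat_sInv {a b : Fin n} (hab : a ≠ b) : sMat a b * sInv a b = 1 := by
  apply mat_ext
  intro x
  rw [← Matrix.mulVec_mulVec, sInv_mulVec hab, sMat_mulVec hab, Matrix.one_mulVec]
  funext k
  by_cases h1 : k = a
  · subst h1; simp [hab.symm]
  · by_cases h2 : k = b
    · subst h2; simp [h1]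
    · simp [h1, h2]

lemma sInv_sMat {a b : Fin n} (hab : a ≠ b) : sInv a b * sMat a b = 1 :=
  _root_.mul_eq_one_comm.mp (sMat_sInv hab)

lemma tMat_tMat {a b : Fin n} : tMat a b * tMat a b = 1 := by
  apply mat_ext
  intro x
  rw [← Matrix.mulVec_mulVec, tMat_mulVec, tMat_mulVec, Matrix.one_mulVec]
  funext k
  by_cases h1 : k = a
  · subst h1
    by_cases h2 : b = k
    · subst h2; simp
    · simp [h2]
  · by_cases h2 : k = b
    · subst h2; simp [h1]
    · simp [h1, h2]

lemma rel_sss {a b c : Fin n} (hab : a ≠ b) (hbc : b ≠ c) (hac : a ≠ c) :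
    sMat a b * sMat b c * sMat a b = sMat b c * sMat a b * sMat b c := by
  apply mat_ext
  intro x
  simp only [← Matrix.mulVec_mulVec, sMat_mulVec hab, sMat_mulVec hbc]
  funext k
  by_cases h1 : k = a
  · subst h1
    simp [hab, hbc, hac, hab.symm, hbc.symm, hac.symm]; ring
  · by_cases h2 : k = b
    · subst h2
      simp [h1, hab, hbc, hac, hab.symm, hbc.symm, hac.symm]
    · by_cases h3 : k = c
      · subst h3
        simp [h1, h2, hab, hbc, hac, hab.symm, hbc.symm, hac.symm]
      · simp [h1, h2, h3]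

lemma rel_ttt {a b c : Fin n} (hab : a ≠ b) (hbc : b ≠ c) (hac : a ≠ c) :
    tMat a b * tMat b c * tMat a b = tMat b c * tMat a b * tMat b c := by
  apply mat_ext
  intro x
  simp only [← Matrix.mulVec_mulVec, tMat_mulVec]
  funext k
  by_cases h1 : k = a
  · subst h1
    simp [hab, hbc, hac, hab.symm, hbc.symm, hac.symm]
  · by_cases h2 : k = b
    · subst h2
      simp [h1, hab, hbc, hac, hab.symm, hbc.symm, hac.symm]
    · by_cases h3 : k = c
      · subst h3
        simp [h1, h2, hab, hbc, hac, hab.symm, hbc.symm, hac.symm]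
      · simp [h1, h2, h3]

lemma rel_tts {a b c : Fin n} (hab : a ≠ b) (hbc : b ≠ c) (hac : a ≠ c) :
    tMat a b * tMat b c * sMat a b = sMat b c * tMat a b * tMat b c := by
  apply mat_ext
  intro x
  simp only [← Matrix.mulVec_mulVec, tMat_mulVec, sMat_mulVec hab, sMat_mulVec hbc]
  funext k
  by_cases h1 : k = a
  · subst h1
    simp [hab, hbc, hac, hab.symm, hbc.symm, hac.symm]
  · by_cases h2 : k = b
    · subst h2
      simp [h1, hab, hbc, hac, hab.symm, hbc.symm, hac.symm]
    · by_cases h3 : k = c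
      · subst h3
        simp [h1, h2, hab, hbc, hac, hab.symm, hbc.symm, hac.symm]
      · simp [h1, h2, h3]

lemma rel_comm_ss {a b c d : Fin n} (hab : a ≠ b) (hcd : c ≠ d) (hac : a ≠ c) (had : a ≠ d)
    (hbc : b ≠ c) (hbd : b ≠ d) : sMat a b * sMat c d = sMat c d * sMat a b := by
  apply mat_ext
  intro x
  simp only [← Matrix.mulVec_mulVec, sMat_mulVec hab, sMat_mulVec hcd]
  funext k
  by_cases h1 : k = a
  · subst h1
    simp [hab, hac, had, hbc, hbd]
  · by_cases h2 : k = b
    · subst h2
      simp [h1, hab, hac, had, hbc, hbd]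
    · by_cases h3 : k = c
      · subst h3
        simp [h1, h2, hac.symm, hbc.symm, had.symm, hbd.symm]
      · by_cases h4 : k = d
        · subst h4
          simp [h1, h2, h3, hac.symm, hbc.symm, had.symm, hbd.symm]
        · simp [h1, h2, h3, h4]

lemma rel_comm_tt {a b c d : Fin n} (hab : a ≠ b) (hcd : c ≠ d) (hac : a ≠ c) (had : a ≠ d)
    (hbc : b ≠ c) (hbd : b ≠ d) : tMat a b * tMat c d = tMat c d * tMat a b := by
  apply mat_ext
  intro x
  simp only [← Matrix.mulVec_mulVec, tMat_mulVec]
  funext k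
  by_cases h1 : k = a
  · subst h1
    simp [hab, hac, had, hbc, hbd]
  · by_cases h2 : k = b
    · subst h2
      simp [h1, hab, hac, had, hbc, hbd]
    · by_cases h3 : k = c
      · subst h3
        simp [h1, h2, hac.symm, hbc.symm, had.symm, hbd.symm]
      · by_cases h4 : k = d
        · subst h4
          simp [h1, h2, h3, hac.symm, hbc.symm, had.symm, hbd.symm]
        · simp [h1, h2, h3, h4]

lemma rel_comm_st {a b c d : Fin n} (hab : a ≠ b) (hcd : c ≠ d) (hac : a ≠ c) (had : a ≠ d)
    (hbc : b ≠ c) (hbd : b ≠ d) : sMat a b * tMat c d = tMat c d * sMat a b := by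
  apply mat_ext
  intro x
  simp only [← Matrix.mulVec_mulVec, tMat_mulVec, sMat_mulVec hab]
  funext k
  by_cases h1 : k = a
  · subst h1
    simp [hab, hac, had, hbc, hbd]
  · by_cases h2 : k = b
    · subst h2
      simp [h1, hab, hac, had, hbc, hbd]
    · by_cases h3 : k = c
      · subst h3
        simp [h1, h2, hac.symm, hbc.symm, had.symm, hbd.symm]
      · by_cases h4 : k = d
        · subst h4
          simp [h1, h2, h3, hac.symm, hbc.symm, had.symm, hbd.symm]
        · simp [h1, h2, h3, h4]

end relations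

/-- `sMat a b` as an invertible matrix. -/
def sGL {n : ℕ} (a b : Fin n) (hab : a ≠ b) : GL (Fin n) ℤ :=
  ⟨sMat a b, sInv a b, sMat_sInv hab, sInv_sMat hab⟩

/-- `tMat a b` as an invertible matrix. -/
def tGL {n : ℕ} (a b : Fin n) : GL (Fin n) ℤ :=
  ⟨tMat a b, tMat a b, tMat_tMat, tMat_tMat⟩

/-- The images of the generators. -/
def gens (m : ℕ) : Fin m ⊕ Fin m → GL (Fin (m + 1)) ℤ
  | Sum.inl i => sGL i.castSucc i.succ (Fin.castSucc_lt_succ).ne
  | Sum.inr i => tGL i.castSucc i.succ

lemma lift_rel (m : ℕ) : ∀ w ∈ relators m, FreeGroup.lift (gens m) w = 1 := by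
  have hs : ∀ i, FreeGroup.lift (gens m) (sg i) = sGL i.castSucc i.succ
    (Fin.castSucc_lt_succ).ne := fun i => FreeGroup.lift_apply_of
  have ht : ∀ i, FreeGroup.lift (gens m) (tg i) = tGL i.castSucc i.succ :=
    fun i => FreeGroup.lift_apply_of
  rintro w ((⟨i, j, hij, h⟩ | ⟨i, j, hij, h⟩) | ⟨i, h⟩)
  · have e : j.castSucc = i.succ := by
      ext
      simp [← hij]
    have h1 : i.castSucc ≠ i.succ := (Fin.castSucc_lt_succ).ne
    have h2 : i.succ ≠ j.succ := by
      intro h
      have := congrArg Fin.val h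
      simp at this
      omega
    have h3 : i.castSucc ≠ j.succ := by
      intro h
      have := congrArg Fin.val h
      simp at this
      omega
    rcases h with rfl | rfl | rfl
    · rw [map_mul, map_inv, mul_inv_eq_one]
      simp only [map_mul, hs]
      apply Units.ext
      simp only [Units.val_mul, sGL, e]
      exact rel_sss h1 h2 h3
    · rw [map_mul, map_inv, mul_inv_eq_one]
      simp only [map_mul, ht]
      apply Units.ext
      simp only [Units.val_mul, tGL, e]
      exact rel_ttt h1 h2 h3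
    · rw [map_mul, map_inv, mul_inv_eq_one]
      simp only [map_mul, hs, ht]
      apply Units.ext
      simp only [Units.val_mul, sGL, tGL, e]
      exact rel_tts h1 h2 h3
  · have h1 : i.castSucc ≠ i.succ := (Fin.castSucc_lt_succ).ne
    have h2 : j.castSucc ≠ j.succ := (Fin.castSucc_lt_succ).ne
    have h3 : i.castSucc ≠ j.castSucc := by
      intro h
      have := congrArg Fin.val h
      simp at this
      omega
    have h4 : i.castSucc ≠ j.succ := by
      intro h
      have := congrArg Fin.val h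
      simp at this
      omega
    have h5 : i.succ ≠ j.castSucc := by
      intro h
      have := congrArg Fin.val h
      simp at this
      omega
    have h6 : i.succ ≠ j.succ := by
      intro h
      have := congrArg Fin.val h
      simp at this
      omega
    rcases h with rfl | rfl | rfl
    · rw [map_mul, map_inv, mul_inv_eq_one]
      simp only [map_mul, hs]
      apply Units.ext
      simp only [Units.val_mul, sGL]
      exact rel_comm_ss h1 h2 h3 h4 h5 h6
    · rw [map_mul, map_inv, mul_inv_eq_one]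
      simp only [map_mul, ht]
      apply Units.ext
      simp only [Units.val_mul, tGL]
      exact rel_comm_tt h1 h2 h3 h4 h5 h6
    · rw [map_mul, map_inv, mul_inv_eq_one]
      simp only [map_mul, hs, ht]
      apply Units.ext
      simp only [Units.val_mul, sGL, tGL]
      exact rel_comm_st h1 h2 h3 h4 h5 h6
  · subst h
    rw [map_mul, ht]
    apply Units.ext
    simp only [Units.val_mul, tGL, Units.val_one]
    exact tMat_tMat

/-- The virtual integral Burau representation `vB_{m+1} → GL_{m+1}(ℤ)`. -/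
def rho (m : ℕ) : VB m →* GL (Fin (m + 1)) ℤ := PresentedGroup.toGroup (lift_rel m)

lemma rho_sigma {m : ℕ} (i : Fin m) :
    (rho m (sigma i) : Matrix (Fin (m + 1)) (Fin (m + 1)) ℤ) = sMat i.castSucc i.succ := by
  rw [rho, sigma, PresentedGroup.toGroup.of]
  rfl

lemma rho_tau {m : ℕ} (i : Fin m) :
    (rho m (tau i) : Matrix (Fin (m + 1)) (Fin (m + 1)) ℤ) = tMat i.castSucc i.succ := by
  rw [rho, tau, PresentedGroup.toGroup.of]
  rfl

lemma tMat_eq_perm {n : ℕ} {a b : Fin n} :
    tMat a b = (Equiv.swap a b).permMatrix ℤ := by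
  ext r c
  rw [Equiv.Perm.permMatrix, PEquiv.toMatrix_apply]
  by_cases h1 : r = a
  · subst h1
    simp [tMat, eq_comm]
  · by_cases h2 : r = b
    · subst h2
      simp [tMat, h1, eq_comm]
    · simp [tMat, h1, h2, Equiv.swap_apply_of_ne_of_ne h1 h2]

lemma rMat_eq {n : ℕ} {a b : Fin n} (hab : a ≠ b) :
    Q3.BurauCore.rMat a b = sMat a b * tMat a b := by
  apply mat_ext
  intro x
  rw [← Matrix.mulVec_mulVec, sMat_mulVec hab, tMat_mulVec]
  funext k
  rw [Matrix.mulVec, dotProduct]
  by_cases hka : k = a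
  · subst hka
    rw [Finset.sum_eq_add k b hab]
    · simp [Q3.BurauCore.rMat, hab.symm]; ring
    · intro c _ hc
      simp [Q3.BurauCore.rMat, hc.1, hc.2]
    · simp
    · simp
  · rw [Finset.sum_eq_single k]
    · by_cases hkb : k = b
      · subst hkb
        simp [Q3.BurauCore.rMat, hka]
      · simp [Q3.BurauCore.rMat, hka, hkb]
    · intro c _ hc
      simp [Q3.BurauCore.rMat, hka, Ne.symm hc]
    · simp

/-- Permutation matrices as a homomorphism. -/
abbrev ph (n : ℕ) : Equiv.Perm (Fin n) →* Matrix (Fin n) (Fin n) ℤ := Matrix.permMatrixHom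

lemma conj_rMat {n : ℕ} (π : Equiv.Perm (Fin n)) (a b : Fin n) :
    Q3.BurauCore.rMat (π a) (π b) =
      ph n π * Q3.BurauCore.rMat a b * ph n π⁻¹ := by
  rw [ph, Matrix.permMatrixHom_apply, Matrix.permMatrixHom_apply, Equiv.Perm.permMatrix,
    Equiv.Perm.permMatrix, PEquiv.toMatrix_toPEquiv_mul, PEquiv.mul_toMatrix_toPEquiv]
  ext r c
  simp only [Matrix.submatrix_apply, Q3.BurauCore.rMat, id]
  have h1 : ∀ x y : Fin n, π⁻¹ x = y ↔ x = π y := fun x y => Equiv.Perm.inv_eq_iff_eq
  have h2 : (Equiv.symm π⁻¹⁻¹) c = π⁻¹ c := rfl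
  have h3 : π (π⁻¹ c) = c := Equiv.apply_symm_apply π c
  rw [h2]
  simp only [h1, h3]

/-- The matrices of the elements in the image of `rho`. -/
def imageMonoid (m : ℕ) : Submonoid (Matrix (Fin (m + 1)) (Fin (m + 1)) ℤ) :=
  (rho m).range.toSubmonoid.map (Units.coeHom _)

lemma sMat_mem {m : ℕ} (i : Fin m) : sMat i.castSucc i.succ ∈ imageMonoid m :=
  ⟨rho m (sigma i), ⟨sigma i, rfl⟩, rho_sigma i⟩

lemma tMat_mem {m : ℕ} (i : Fin m) : tMat i.castSucc i.succ ∈ imageMonoid m :=
  ⟨rho m (tau i), ⟨tau i, rfl⟩, rho_tau i⟩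

lemma perm_mem {m : ℕ} (π : Equiv.Perm (Fin (m + 1))) :
    ph _ π ∈ imageMonoid m := by
  have h : (⊤ : Submonoid (Equiv.Perm (Fin (m + 1)))) ≤
      (imageMonoid m).comap (ph _) := by
    rw [← Equiv.Perm.mclosure_swap_castSucc_succ, Submonoid.closure_le]
    rintro _ ⟨i, rfl⟩
    simp only [Submonoid.coe_comap, Set.mem_preimage, SetLike.mem_coe]
    rw [Matrix.permMatrixHom_apply, Equiv.swap_inv, ← tMat_eq_perm]
    exact tMat_mem i
  exact h (Submonoid.mem_top π)

lemma rMat_mem {m : ℕ} (i j : Fin (m + 1)) (hij : i ≠ j) :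
    Q3.BurauCore.rMat i j ∈ imageMonoid m := by
  obtain ⟨m, rfl⟩ : ∃ m', m = m' + 1 := by
    rcases m with _ | m
    · exact absurd (by omega) hij
    · exact ⟨m, rfl⟩
  set a : Fin (m + 2) := (0 : Fin (m + 1)).castSucc with ha
  set b : Fin (m + 2) := (0 : Fin (m + 1)).succ with hb
  have hab : a ≠ b := (Fin.castSucc_lt_succ).ne
  have hr : Q3.BurauCore.rMat a b ∈ imageMonoid (m + 1) := by
    rw [rMat_eq hab]
    exact mul_mem (sMat_mem 0) (tMat_mem 0)
  let π : Equiv.Perm (Fin (m + 2)) := Equiv.swap (Equiv.swap a i b) j * Equiv.swap a i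
  have h1 : Equiv.swap a i b ≠ i := by
    intro h
    apply hab
    have := congrArg (Equiv.swap a i) h
    simpa using this.symm
  have h2 : π a = i := by
    simp only [π, Equiv.Perm.mul_apply, Equiv.swap_apply_left]
    exact Equiv.swap_apply_of_ne_of_ne h1.symm hij
  have h3 : π b = j := by
    simp only [π, Equiv.Perm.mul_apply, Equiv.swap_apply_left]
  rw [← h2, ← h3, conj_rMat]
  exact mul_mem (mul_mem (perm_mem _) hr) (perm_mem _)

/-- The criterion: all row sums are `1` and the reduction mod 2 is a permutation matrix. -/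
def Criterion {m : ℕ} (M : Matrix (Fin (m + 1)) (Fin (m + 1)) ℤ) : Prop :=
  (∀ r, ∑ c, M r c = 1) ∧
    ∃ π : Equiv.Perm (Fin (m + 1)), ∀ r c, (M r c : ZMod 2) = if π r = c then 1 else 0

lemma mem_of_criterion {m : ℕ} (M : GL (Fin (m + 1)) ℤ)
    (h : Criterion (M : Matrix (Fin (m + 1)) (Fin (m + 1)) ℤ)) : M ∈ (rho m).range := by
  obtain ⟨hrow, π, hπ⟩ := h
  set A : Matrix (Fin (m + 1)) (Fin (m + 1)) ℤ := (M : Matrix (Fin (m + 1)) (Fin (m + 1)) ℤ)
    with hA
  have hent : ∀ r c, (A * ph _ π) r c = A r (π c) := by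
    intro r c
    rw [ph, Matrix.permMatrixHom_apply, Equiv.Perm.permMatrix, PEquiv.mul_toMatrix_toPEquiv]
    rfl
  have hinv : A * ((M⁻¹ : GL (Fin (m + 1)) ℤ) : Matrix (Fin (m + 1)) (Fin (m + 1)) ℤ) = 1 := by
    rw [hA, ← Units.val_mul, mul_inv_cancel, Units.val_one]
  have hgood : Q3.BurauCore.Good (A * ph _ π) := by
    refine ⟨⟨ph _ π⁻¹ *
      ((M⁻¹ : GL (Fin (m + 1)) ℤ) : Matrix (Fin (m + 1)) (Fin (m + 1)) ℤ), ?_⟩, ?_, ?_, ?_⟩
    · rw [Matrix.mul_assoc, ← Matrix.mul_assoc (ph _ π), ← map_mul, mul_inv_cancel, map_one,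
        Matrix.one_mul, hinv]
    · intro r
      simp only [hent]
      rw [← hrow r]
      exact Equiv.sum_comp π (fun c => A r c)
    · intro r c hrc
      rw [hent]
      have := hπ r (π c)
      rw [if_neg (fun h => hrc (π.injective h))] at this
      exact (ZMod.intCast_zmod_eq_zero_iff_dvd _ 2).mp this
    · intro r hdvd
      rw [hent] at hdvd
      have := hπ r (π r)
      rw [if_pos rfl, (ZMod.intCast_zmod_eq_zero_iff_dvd _ 2).mpr hdvd] at this
      exact absurd this (by decide)
  have h1 : A * ph _ π ∈ imageMonoid m :=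
    Q3.BurauCore.good_mem rMat_mem _ hgood
  have h2 : A ∈ imageMonoid m := by
    have := mul_mem h1 (perm_mem π⁻¹)
    rwa [Matrix.mul_assoc, ← map_mul, mul_inv_cancel, map_one, Matrix.mul_one] at this
  obtain ⟨g, hg, hgM⟩ := h2
  have : g = M := Units.ext hgM
  rw [← this]
  exact hg

/-- Permutation matrices mod 2 as a homomorphism. -/
abbrev ph2 (n : ℕ) : Equiv.Perm (Fin n) →* Matrix (Fin n) (Fin n) (ZMod 2) := Matrix.permMatrixHom

/-- Reduction mod 2. -/
abbrev red2 (n : ℕ) : Matrix (Fin n) (Fin n) ℤ →+* Matrix (Fin n) (Fin n) (ZMod 2) :=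
  RingHom.mapMatrix (Int.castRingHom (ZMod 2))

/-- The invertible matrices satisfying the criterion form a subgroup. -/
def critGroup (m : ℕ) : Subgroup (GL (Fin (m + 1)) ℤ) where
  carrier := {M | (M : Matrix (Fin (m + 1)) (Fin (m + 1)) ℤ) *ᵥ 1 = 1 ∧
    ∃ π : Equiv.Perm (Fin (m + 1)),
      red2 _ (M : Matrix (Fin (m + 1)) (Fin (m + 1)) ℤ) = ph2 _ π}
  one_mem' := by
    refine ⟨by simp, 1, ?_⟩
    rw [Units.val_one, map_one, map_one]
  mul_mem' := by
    rintro a b ⟨ha, π, hπ⟩ ⟨hb, π', hπ'⟩
    refine ⟨?_, π * π', ?_⟩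
    · rw [Units.val_mul, ← Matrix.mulVec_mulVec, hb, ha]
    · rw [Units.val_mul, map_mul, hπ, hπ', map_mul]
  inv_mem' := by
    rintro a ⟨ha, π, hπ⟩
    refine ⟨?_, π⁻¹, ?_⟩
    · conv_lhs => rw [← ha]
      rw [Matrix.mulVec_mulVec, ← Units.val_mul, inv_mul_cancel, Units.val_one, Matrix.one_mulVec]
    · have h1 : red2 _ ((a⁻¹ : GL (Fin (m + 1)) ℤ) : Matrix (Fin (m + 1)) (Fin (m + 1)) ℤ) *
          ph2 _ π = 1 := by
        rw [← hπ, ← map_mul, ← Units.val_mul, inv_mul_cancel, Units.val_one, map_one]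
      have h2 : ph2 (m + 1) π * ph2 _ π⁻¹ = 1 := by
        rw [← map_mul, mul_inv_cancel, map_one]
      exact left_inv_eq_right_inv h1 h2

lemma criterion_of_mem {m : ℕ} (M : GL (Fin (m + 1)) ℤ) (h : M ∈ (rho m).range) :
    Criterion (M : Matrix (Fin (m + 1)) (Fin (m + 1)) ℤ) := by
  have hle : (rho m).range ≤ critGroup m := by
    rw [MonoidHom.range_eq_map, ← PresentedGroup.closure_range_of, MonoidHom.map_closure,
      Subgroup.closure_le]
    rintro _ ⟨_, ⟨g, rfl⟩, rfl⟩
    rcases g with i | i
    · have hi : (i.castSucc : Fin (m + 1)) ≠ i.succ := (Fin.castSucc_lt_succ).ne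
      have hval := rho_sigma i
      rw [sigma] at hval
      refine ⟨?_, Equiv.swap i.castSucc i.succ, ?_⟩
      · rw [hval, sMat_mulVec hi]
        funext k
        simp only [Pi.one_apply]
        split_ifs <;> norm_num
      · rw [hval]
        ext r c
        rw [ph2, Matrix.permMatrixHom_apply, Equiv.swap_inv, Equiv.Perm.permMatrix,
          PEquiv.toMatrix_apply]
        simp only [RingHom.mapMatrix_apply, Matrix.map_apply, Int.coe_castRingHom, sMat]
        by_cases h1 : r = i.castSucc
        · subst h1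
          by_cases h2 : c = i.castSucc
          · subst h2
            simp [hi.symm]
            decide
          · by_cases h3 : c = i.succ
            · subst h3
              simp [hi.symm]
            · simp [h2, h3, Ne.symm h3]
        · by_cases h4 : r = i.succ
          · subst h4
            by_cases h2 : c = i.castSucc
            · subst h2
              simp [hi.symm]
            · simp [h2, Ne.symm h2, hi.symm]
          · simp [h1, h4, Equiv.swap_apply_of_ne_of_ne h1 h4]
    · have hval := rho_tau i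
      rw [tau] at hval
      refine ⟨?_, Equiv.swap i.castSucc i.succ, ?_⟩
      · rw [hval, tMat_mulVec]
        funext k
        simp only [Pi.one_apply]
        split_ifs <;> norm_num
      · rw [hval, tMat_eq_perm]
        ext r c
        rw [ph2, Matrix.permMatrixHom_apply, Equiv.swap_inv]
        simp only [RingHom.mapMatrix_apply, Matrix.map_apply, Equiv.Perm.permMatrix,
          PEquiv.toMatrix_apply]
        split_ifs <;> simp
  obtain ⟨hrow, π, hπ⟩ := hle h
  refine ⟨fun r => ?_, π⁻¹, fun r c => ?_⟩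
  · have := congrFun hrow r
    simpa [Matrix.mulVec, dotProduct] using this
  · have := congrFun (congrFun hπ r) c
    rw [ph2, Matrix.permMatrixHom_apply, Equiv.Perm.permMatrix, PEquiv.toMatrix_apply] at this
    simp only [RingHom.mapMatrix_apply, Matrix.map_apply, Int.coe_castRingHom] at this
    rw [this]
    simp

/-- For every `n = m + 1 ≥ 1`: the virtual integral Burau representation exists (it has the
prescribed values on the generators), and its image consists exactly of the matrices in
`GL_n(ℤ)` whose rows all sum to `1` and whose reduction mod 2 is a permutation matrix. -/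
theorem result (m : ℕ) :
    ∃ ρ : VB m →* GL (Fin (m + 1)) ℤ,
      (∀ i : Fin m, (ρ (sigma i) : Matrix (Fin (m + 1)) (Fin (m + 1)) ℤ)
        = sMat i.castSucc i.succ) ∧
      (∀ i : Fin m, (ρ (tau i) : Matrix (Fin (m + 1)) (Fin (m + 1)) ℤ)
        = tMat i.castSucc i.succ) ∧
      ∀ M : GL (Fin (m + 1)) ℤ, M ∈ ρ.range ↔
        (∀ r, ∑ c, (M : Matrix (Fin (m + 1)) (Fin (m + 1)) ℤ) r c = 1) ∧
        ∃ π : Equiv.Perm (Fin (m + 1)), ∀ r c,
          (((M : Matrix (Fin (m + 1)) (Fin (m + 1)) ℤ) r c : ℤ) : ZMod 2)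
            = if π r = c then 1 else 0 :=
  ⟨rho m, rho_sigma, rho_tau, fun M => ⟨criterion_of_mem M, mem_of_criterion M⟩⟩

end Pool.Agent.Results.MP_e5baee_al.BurauImage
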